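import Pool.Agent.H18.KE.Fin

/-!
The Kac-Weisfeiler equality for restricted Lie algebras with a minimal stabilizer which is at most
one-dimensional modulo its `p`-th powers and the differentials of Poisson invariants of degree `< p`.
-/

set_option autoImplicit false

namespace Pool.Agent.Results.MP_9fed08_al.CyclicStabilizer

open Module

section

variable {K : Type} [Field K] {L : Type} [LieRing L] [LieAlgebra K L] {n : ℕ}

/-- The stabilizer of `χ`: all `x` with `χ ⁅y, x⁆ = 0` for all `y`. -/
def stabilizer (χ : Module.Dual K L) : Submodule K L :=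
  ⨅ y : L, LinearMap.ker (LinearMap.comp χ (LieAlgebra.ad K L y))

/-- A vector of `L` as a linear form in the symmetric algebra `S(L) = K[X_1, …, X_n]`, where `X_i` is
the basis vector `bas i`. -/
noncomputable def form (bas : Basis (Fin n) K L) (y : L) : MvPolynomial (Fin n) K :=
  ∑ k, MvPolynomial.C (bas.repr y k) * MvPolynomial.X k

/-- Poisson invariants of `S(L)`: `{x, z} = ∑ ∂z/∂X_i · ⁅x, bas i⁆ = 0` for all `x` in `L`. -/
def IsInvariant (bas : Basis (Fin n) K L) (z : MvPolynomial (Fin n) K) : Prop :=
  ∀ x : L, ∑ i, MvPolynomial.pderiv i z * form bas ⁅x, bas i⁆ = 0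

/-- The differential at the point `χ` of the polynomial function `z` on `L*`, a vector of `L`. -/
noncomputable def diffAt (bas : Basis (Fin n) K L) (χ : Module.Dual K L)
    (z : MvPolynomial (Fin n) K) : L :=
  ∑ i, (MvPolynomial.aeval (fun k => χ (bas k)) (MvPolynomial.pderiv i z) : K) • bas i

/-- The span of all `p`-th powers of elements of the stabilizer of `χ` (all `y` with
`ad y = (ad x)^p`, `x` in the stabilizer; this includes the centre of `L`) and of the differentials at
`χ` of all Poisson invariants of degree less than `p`. -/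
noncomputable def cyclicPart (p : ℕ) (bas : Basis (Fin n) K L) (χ : Module.Dual K L) :
    Submodule K L :=
  Submodule.span K
    ({y : L | ∃ x ∈ stabilizer χ, (LieAlgebra.ad K L x) ^ p = LieAlgebra.ad K L y} ∪
      {y : L | ∃ z : MvPolynomial (Fin n) K,
        IsInvariant bas z ∧ z.totalDegree < p ∧ y = diffAt bas χ z})

end

/-- The Kac-Weisfeiler equality if some stabilizer of minimal dimension is at most one-dimensional
modulo the span of its `p`-th powers and of the differentials of invariants of degree `< p`. -/
theorem result (p : ℕ) (hp : p.Prime) (K : Type) [Field K] [IsAlgClosed K] [CharP K p]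
    (L : Type) [LieRing L] [LieAlgebra K L] [FiniteDimensional K L]
    (hL : ∀ x : L, ∃ y : L, (LieAlgebra.ad K L x) ^ p = LieAlgebra.ad K L y)
    (n : ℕ) (bas : Basis (Fin n) K L) (χ₀ : Module.Dual K L)
    (hmin : ∀ χ : Module.Dual K L,
      Module.finrank K (stabilizer χ₀) ≤ Module.finrank K (stabilizer χ))
    (hcyc : Module.finrank K (stabilizer χ₀) ≤ Module.finrank K (cyclicPart p bas χ₀) + 1) :
    ∀ d : ℕ,
      (∃ χ : Module.Dual K L,
        Module.finrank K ↥(⨅ y : L, LinearMap.ker (LinearMap.comp χ (LieAlgebra.ad K L y))) = d) →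
      (∀ χ : Module.Dual K L,
        d ≤ Module.finrank K ↥(⨅ y : L, LinearMap.ker (LinearMap.comp χ (LieAlgebra.ad K L y)))) →
      (∀ (M : Type) [AddCommGroup M] [Module K M] [LieRingModule L M] [LieModule K L M],
        LieModule.IsIrreducible K L M → FiniteDimensional K M →
        Module.finrank K M ^ 2 ≤ p ^ (Module.finrank K L - d)) ∧
      (∃ (M : Type) (_ : AddCommGroup M) (_ : Module K M) (_ : LieRingModule L M)
          (_ : LieModule K L M),
        LieModule.IsIrreducible K L M ∧ FiniteDimensional K M ∧
        Module.finrank K M ^ 2 = p ^ (Module.finrank K L - d)) := by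
  haveI : Fact p.Prime := ⟨hp⟩
  have h1 : ∀ z : MvPolynomial (Fin n) K, IsInvariant bas z ↔ H18.KE.Inv bas z := by
    intro z
    constructor
    · intro h x
      rw [H18.KE.pb_apply]
      exact h x
    · intro h x
      have h2 := h x
      rw [H18.KE.pb_apply] at h2
      exact h2
  have h3 : cyclicPart p bas χ₀ = H18.KE.qw p bas χ₀ := by
    unfold cyclicPart H18.KE.qw
    congr 2
    ext y
    constructor
    · rintro ⟨z, hz, hd, hy⟩
      exact ⟨z, (h1 z).1 hz, hd, hy⟩
    · rintro ⟨z, hz, hd, hy⟩
      exact ⟨z, (h1 z).2 hz, hd, hy⟩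
  rw [h3] at hcyc
  exact H18.KE.kw_good p K L hL bas χ₀ hmin hcyc

end Pool.Agent.Results.MP_9fed08_al.CyclicStabilizer
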